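import Mathlib

set_option autoImplicit false
open MeasureTheory Matrix

namespace Pool.Agent.Results.MP_4d58d7_an.ConstDelta

/-- Squared Euclidean norm. -/
def sqn {m : ℕ} (x : Fin m → ℝ) : ℝ := ∑ i, x i ^ 2

/-- Frobenius norm. -/
noncomputable def frob {m q : ℕ} (M : Matrix (Fin m) (Fin q) ℝ) : ℝ :=
  Real.sqrt (∑ i, ∑ j, M i j ^ 2)

/-- The random matrix `Ω` (on the probability space `(S, P)`) is an oblivious subspace injection of
dimension `r` with injectivity `α` and failure probability `δ`. -/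
def IsOSI {n k : ℕ} {S : Type} [MeasurableSpace S] (P : Measure S)
    (Ω : S → Matrix (Fin n) (Fin k) ℝ) (r : ℕ) (α δ : ℝ) : Prop :=
  (∀ i j, Measurable fun ω => Ω ω i j) ∧
  (∀ x : Fin n → ℝ, Integrable (fun ω => sqn ((Ω ω)ᵀ *ᵥ x)) P ∧
    ∫ ω, sqn ((Ω ω)ᵀ *ᵥ x) ∂P = sqn x) ∧
  (∀ V : Submodule ℝ (Fin n → ℝ), Module.finrank ℝ V = r →
    ENNReal.ofReal (1 - δ) ≤ P {ω | ∀ x ∈ V, α * sqn x ≤ sqn ((Ω ω)ᵀ *ᵥ x)})

/-- `N` is the Moore-Penrose pseudoinverse of `M` (the four Penrose conditions). -/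
def IsPinv {a b : ℕ} (M : Matrix (Fin a) (Fin b) ℝ) (N : Matrix (Fin b) (Fin a) ℝ) : Prop :=
  M * N * M = M ∧ N * M * N = N ∧ (M * N)ᵀ = M * N ∧ (N * M)ᵀ = N * M

/-- The least value of `‖A X - B‖_F`. -/
noncomputable def OPT {n d p : ℕ} (A : Matrix (Fin n) (Fin d) ℝ) (B : Matrix (Fin n) (Fin p) ℝ) : ℝ :=
  ⨅ X : Matrix (Fin d) (Fin p) ℝ, frob (A * X - B)

/-- the three sketching matrices -/
noncomputable def Om : Fin 3 → Matrix (Fin 2) (Fin 2) ℝ :=
  ![0, !![200 / 199, 0; (200 / 199) * (201 / 20201), (200 / 199) * (20200 / 20201)],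
    !![200 / 199, 0; -(200 / 199) * (201 / 20201), (200 / 199) * (20200 / 20201)]]

/-- their law -/
noncomputable def PP : Measure (Fin 3) :=
  ENNReal.ofReal (399 / 40000) • Measure.dirac 0 + ENNReal.ofReal (39601 / 80000) • Measure.dirac 1 +
    ENNReal.ofReal (39601 / 80000) • Measure.dirac 2

lemma PP0 : PP {0} = ENNReal.ofReal (399 / 40000) := by
  simp [PP]

lemma PP1 : PP {1} = ENNReal.ofReal (39601 / 80000) := by
  simp [PP]

lemma PP2 : PP {2} = ENNReal.ofReal (39601 / 80000) := by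
  simp [PP]

instance : IsProbabilityMeasure PP := ⟨by
  simp only [PP, Measure.add_apply, Measure.smul_apply, measure_univ, smul_eq_mul, mul_one]
  rw [← ENNReal.ofReal_add (by norm_num) (by norm_num), ← ENNReal.ofReal_add (by norm_num) (by norm_num)]
  norm_num⟩

/-- the matrix `A`, the first unit column -/
def AA : Matrix (Fin 2) (Fin 1) ℝ := Matrix.of fun i _ => if i = 0 then 1 else 0
/-- the matrix `B`, the column of ones -/
def BB : Matrix (Fin 2) (Fin 1) ℝ := Matrix.of fun _ _ => 1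

lemma sq0 (x : Fin 2 → ℝ) : sqn ((Om 0)ᵀ *ᵥ x) = 0 := by
  simp [Om, sqn]

lemma sq1 (x : Fin 2 → ℝ) : sqn ((Om 1)ᵀ *ᵥ x) =
    (200 / 199) ^ 2 * (x 0 ^ 2 + x 1 ^ 2 + 2 * (201 / 20201) * x 0 * x 1) := by
  simp [Om, sqn, Matrix.mulVec, dotProduct, Fin.sum_univ_two]
  ring

lemma sq2 (x : Fin 2 → ℝ) : sqn ((Om 2)ᵀ *ᵥ x) =
    (200 / 199) ^ 2 * (x 0 ^ 2 + x 1 ^ 2 - 2 * (201 / 20201) * x 0 * x 1) := by
  simp [Om, sqn, Matrix.mulVec, dotProduct, Fin.sum_univ_two]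
  ring

lemma osi (ε : ℝ) (hε : 0 < ε) (r : ℕ) : IsOSI PP Om r (1 - ε) (1 / 100) := by
  refine ⟨fun i j => measurable_of_finite _, fun x => ⟨Integrable.of_finite, ?_⟩, fun V _ => ?_⟩
  · rw [integral_fintype Integrable.of_finite]
    simp only [Fin.sum_univ_three, Measure.real, PP0, PP1, PP2, sq0, sq1, sq2, smul_eq_mul]
    rw [ENNReal.toReal_ofReal (by norm_num), ENNReal.toReal_ofReal (by norm_num)]
    simp only [sqn, Fin.sum_univ_two]
    ring
  · have h1 : ({1, 2} : Set (Fin 3)) ⊆ {ω | ∀ x ∈ V, (1 - ε) * sqn x ≤ sqn ((Om ω)ᵀ *ᵥ x)} := by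
      rintro ω (rfl | rfl)
      · intro x _
        rw [sq1]
        simp only [sqn, Fin.sum_univ_two]
        nlinarith [sq_nonneg (x 0 + x 1), sq_nonneg (x 0 - x 1), sq_nonneg (x 0), sq_nonneg (x 1)]
      · intro x _
        rw [sq2]
        simp only [sqn, Fin.sum_univ_two]
        nlinarith [sq_nonneg (x 0 + x 1), sq_nonneg (x 0 - x 1), sq_nonneg (x 0), sq_nonneg (x 1)]
    refine le_trans ?_ (measure_mono h1)
    have h2 : PP ({1, 2} : Set (Fin 3)) = PP {1} + PP {2} := by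
      rw [← Set.singleton_union, measure_union (by simp) (measurableSet_singleton _)]
    rw [h2, PP1, PP2, ← ENNReal.ofReal_add (by norm_num) (by norm_num)]
    apply ENNReal.ofReal_le_ofReal
    norm_num

lemma frob_AB (X : Matrix (Fin 1) (Fin 1) ℝ) : frob (AA * X - BB) = Real.sqrt ((X 0 0 - 1) ^ 2 + 1) := by
  unfold frob
  congr 1
  simp only [AA, BB, Matrix.mul_apply, Fin.sum_univ_two, Matrix.sub_apply, Matrix.of_apply,
    Fin.sum_univ_one, Finset.univ_unique, Finset.sum_singleton, Fin.default_eq_zero]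
  simp

lemma opt : OPT AA BB = 1 := by
  unfold OPT
  apply le_antisymm
  · have h1 : (⨅ X : Matrix (Fin 1) (Fin 1) ℝ, frob (AA * X - BB)) ≤ frob (AA * (Matrix.of fun _ _ => 1 : Matrix (Fin 1) (Fin 1) ℝ) - BB) := by
      apply ciInf_le
      refine ⟨0, ?_⟩
      rintro _ ⟨X, rfl⟩
      exact Real.sqrt_nonneg _
    rw [frob_AB] at h1
    simpa using h1
  · apply le_ciInf
    intro X
    rw [frob_AB]
    apply Real.le_sqrt_of_sq_le
    nlinarith [sq_nonneg (X 0 0 - 1)]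

/-- the exact pseudoinverse for the two nonzero outcomes -/
lemma pinv_spec (κ : ℝ) (hκ : κ ≠ 0) (N : Matrix (Fin 1) (Fin 2) ℝ)
    (M : Matrix (Fin 2) (Fin 1) ℝ) (hM0 : M 0 0 = κ) (hM1 : M 1 0 = 0) :
    IsPinv M N ↔ N 0 0 = κ⁻¹ ∧ N 0 1 = 0 := by
  have ext21 : ∀ P Q : Matrix (Fin 2) (Fin 1) ℝ, P = Q ↔ P 0 0 = Q 0 0 ∧ P 1 0 = Q 1 0 := by
    intro P Q
    refine ⟨fun h => by rw [h]; exact ⟨rfl, rfl⟩, fun h => ?_⟩
    ext i j; fin_cases i <;> fin_cases j; exacts [h.1, h.2]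
  have ext12 : ∀ P Q : Matrix (Fin 1) (Fin 2) ℝ, P = Q ↔ P 0 0 = Q 0 0 ∧ P 0 1 = Q 0 1 := by
    intro P Q
    refine ⟨fun h => by rw [h]; exact ⟨rfl, rfl⟩, fun h => ?_⟩
    ext i j; fin_cases i; fin_cases j; exacts [h.1, h.2]
  have ext11 : ∀ P Q : Matrix (Fin 1) (Fin 1) ℝ, P = Q ↔ P 0 0 = Q 0 0 := by
    intro P Q
    refine ⟨fun h => by rw [h], fun h => ?_⟩
    ext i j; fin_cases i; fin_cases j; exact h
  have ext22 : ∀ P Q : Matrix (Fin 2) (Fin 2) ℝ, P = Q ↔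
      (P 0 0 = Q 0 0 ∧ P 0 1 = Q 0 1) ∧ (P 1 0 = Q 1 0 ∧ P 1 1 = Q 1 1) := by
    intro P Q
    refine ⟨fun h => by rw [h]; exact ⟨⟨rfl, rfl⟩, rfl, rfl⟩, fun h => ?_⟩
    ext i j; fin_cases i <;> fin_cases j; exacts [h.1.1, h.1.2, h.2.1, h.2.2]
  unfold IsPinv
  rw [ext21, ext12, ext22, ext11]
  simp only [Matrix.mul_apply, Fin.sum_univ_two, Fin.sum_univ_one, Matrix.transpose_apply,
    Finset.univ_unique, Finset.sum_singleton, Fin.default_eq_zero, hM0, hM1]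
  constructor
  · rintro ⟨h1, _, h3, _⟩
    have n1 : N 0 1 = 0 := by
      have h : κ * N 0 1 = 0 := by linarith [h3.1.2]
      exact (mul_eq_zero.mp h).resolve_left hκ
    have n0 : N 0 0 = κ⁻¹ := by
      have h2 : κ * (κ * N 0 0 - 1) = 0 := by linarith [h1.1]
      have h3 : κ * N 0 0 - 1 = 0 := (mul_eq_zero.mp h2).resolve_left hκ
      field_simp
      linarith
    exact ⟨n0, n1⟩
  · rintro ⟨h0, h1⟩
    rw [h0, h1]
    simp [hκ]

lemma pinv_zero (N : Matrix (Fin 1) (Fin 2) ℝ) : IsPinv (0 : Matrix (Fin 2) (Fin 1) ℝ) N ↔ N = 0 := by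
  constructor
  · rintro ⟨_, h2, _, _⟩
    simpa using h2.symm
  · rintro rfl
    refine ⟨?_, ?_, ?_, ?_⟩ <;> simp

/-- For every constant `C` there is `ε₀ ∈ (0,1)` such that for **every** `ε ∈ (0, ε₀)` there are a
`2 × 2` OSI of dimension `d = 1` with injectivity `1 - ε` and failure probability `δ = 0.01` and
matrices `A` (of rank `d = 1`) and `B` (with `p = 1` column, `OPT A B > 0`) such that on **every**
outcome the sketch-and-solve estimate `X̃ = (Ωᵀ A)⁺ Ωᵀ B` has error more than `(1 + C ε) OPT`. -/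
theorem result (C : ℝ) :
    ∃ ε₀ : ℝ, 0 < ε₀ ∧ ε₀ < 1 ∧ ∀ ε : ℝ, 0 < ε → ε < ε₀ →
      ∃ (S : Type) (_ : MeasurableSpace S) (P : Measure S) (_ : IsProbabilityMeasure P)
        (Ω : S → Matrix (Fin 2) (Fin 2) ℝ) (A : Matrix (Fin 2) (Fin 1) ℝ)
        (B : Matrix (Fin 2) (Fin 1) ℝ),
        A.rank = 1 ∧ 0 < OPT A B ∧ IsOSI P Ω 1 (1 - ε) (1 / 100) ∧
        ∀ ω : S, (∃ N, IsPinv ((Ω ω)ᵀ * A) N) ∧
          ∀ N, IsPinv ((Ω ω)ᵀ * A) N →
            (1 + C * ε) * OPT A B < frob (A * (N * ((Ω ω)ᵀ * B)) - B) := by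
  refine ⟨1 / (100000 * (1 + |C|)), by positivity, ?_, ?_⟩
  · rw [div_lt_one (by positivity)]
    have := abs_nonneg C
    nlinarith
  intro ε hε hε2
  have hC : C * ε ≤ 1 / 100000 := by
    have h1 : C * ε ≤ (1 + |C|) * ε := by
      have := le_abs_self C
      nlinarith
    have h2 : (1 + |C|) * ε < (1 + |C|) * (1 / (100000 * (1 + |C|))) := by
      apply mul_lt_mul_of_pos_left hε2
      positivity
    have h3 : (1 + |C|) * (1 / (100000 * (1 + |C|))) = 1 / 100000 := by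
      have : (1 + |C|) ≠ 0 := by positivity
      field_simp
    linarith
  refine ⟨Fin 3, inferInstance, PP, inferInstance, Om, AA, BB, ?_, ?_, osi ε hε 1, ?_⟩
  · have h1 : AA.rank ≤ 1 := by
      have := AA.rank_le_width
      simpa using this
    have h2 : AA.rank ≠ 0 := by
      intro h0
      have h3 : AA.mulVec (fun _ => 1) = 0 := by
        have h4 : LinearMap.range AA.mulVecLin = ⊥ := by
          rw [← Submodule.finrank_eq_zero (R := ℝ)]
          exact h0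
        have h5 : AA.mulVecLin (fun _ => 1) ∈ LinearMap.range AA.mulVecLin := ⟨_, rfl⟩
        rw [h4] at h5
        exact h5
      have h6 := congrFun h3 0
      simp [AA, Matrix.mulVec, dotProduct] at h6
    omega
  · rw [opt]; norm_num
  · rw [opt, mul_one]
    have key : ∀ X : Matrix (Fin 1) (Fin 1) ℝ, 9 / 100000 ≤ (X 0 0 - 1) ^ 2 →
        1 + C * ε < frob (AA * X - BB) := by
      intro X ht
      rw [frob_AB]
      have h1 : 1 + 1 / 100000 < Real.sqrt ((X 0 0 - 1) ^ 2 + 1) := by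
        apply Real.lt_sqrt_of_sq_lt
        norm_num
        linarith
      linarith
    have hm : ∀ (ω : Fin 3) (t : ℝ), (Om ω) 0 0 = 200 / 199 → (Om ω) 0 1 = 0 →
        (Om ω) 1 0 = 200 / 199 * t → 9 / 100000 ≤ t ^ 2 →
        (∃ N, IsPinv ((Om ω)ᵀ * AA) N) ∧ ∀ N, IsPinv ((Om ω)ᵀ * AA) N →
            1 + C * ε < frob (AA * (N * ((Om ω)ᵀ * BB)) - BB) := by
      intro ω t h00 h01 h10 ht
      have hM0 : ((Om ω)ᵀ * AA) 0 0 = 200 / 199 := by
        simp [Matrix.mul_apply, Fin.sum_univ_two, AA, h00]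
      have hM1 : ((Om ω)ᵀ * AA) 1 0 = 0 := by
        simp [Matrix.mul_apply, Fin.sum_univ_two, AA, h01]
      have hsp := fun N => pinv_spec (200 / 199) (by norm_num) N ((Om ω)ᵀ * AA) hM0 hM1
      constructor
      · refine ⟨Matrix.of fun _ j => if j = 0 then (200 / 199 : ℝ)⁻¹ else 0, ?_⟩
        rw [hsp]
        simp
      · intro N hN
        rw [hsp] at hN
        apply key
        have h2 : (N * ((Om ω)ᵀ * BB)) 0 0 = 1 + t := by
          simp only [Matrix.mul_apply, Fin.sum_univ_two, Matrix.transpose_apply, BB, Matrix.of_apply,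
            h00, h10, hN.1, hN.2]
          norm_num
          ring
        rw [h2]
        simpa using ht
    intro ω
    fin_cases ω
    · have h0 : (Om 0)ᵀ * AA = 0 := by simp [Om]
      have h0' : (Om 0)ᵀ * BB = 0 := by simp [Om]
      change (∃ N, IsPinv ((Om 0)ᵀ * AA) N) ∧ ∀ N, IsPinv ((Om 0)ᵀ * AA) N →
            1 + C * ε < frob (AA * (N * ((Om 0)ᵀ * BB)) - BB)
      rw [h0, h0']
      refine ⟨⟨0, (pinv_zero 0).mpr rfl⟩, fun N _ => ?_⟩
      apply key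
      simp
      norm_num
    · exact hm 1 (201 / 20201) rfl rfl rfl (by norm_num)
    · exact hm 2 (-(201 / 20201)) rfl rfl (by simp [Om]) (by norm_num)

end Pool.Agent.Results.MP_4d58d7_an.ConstDelta
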